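import Pool.Agent.H998.LT.Defs

set_option autoImplicit false

/-!
# Kernels with prescribed zero set of the Fourier transform
-/

open MeasureTheory Real
open scoped FourierTransform ComplexConjugate ContDiff SchwartzMap

namespace Pool.Agent.H294.LT

noncomputable section

open Pool.Agent.H998.LT

/-- Schwartz functions decay quadratically -/
lemma schwartz_decay (F : 𝓢(ℝ, ℂ)) : ∃ C : ℝ, 0 ≤ C ∧ ∀ x, ‖F x‖ ≤ C / (1 + x ^ 2) := by
  obtain ⟨C0, h0, hC0⟩ := F.decay 0 0
  obtain ⟨C2, h2, hC2⟩ := F.decay 2 0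
  refine ⟨C0 + C2, by positivity, fun x => ?_⟩
  have a := hC0 x
  have b := hC2 x
  rw [norm_iteratedFDeriv_zero] at a b
  rw [le_div_iff₀ (by positivity)]
  have hx : ‖x‖ ^ 2 = x ^ 2 := by rw [Real.norm_eq_abs, sq_abs]
  rw [hx] at b
  rw [pow_zero, one_mul] at a
  nlinarith

/-- a smooth, compactly supported, even, real function is the Fourier transform of a real
function -/
lemma piece (ψ : ℝ → ℝ) (hs : ContDiff ℝ ∞ ψ) (hc : HasCompactSupport ψ)
    (he : ∀ x, ψ (-x) = ψ x) :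
    ∃ (g : ℝ → ℝ) (B : ℝ), 0 ≤ B ∧ Nice (fun y => (g y : ℂ)) (fun ξ => (ψ ξ : ℂ)) B := by
  have hc' : HasCompactSupport (fun x => (ψ x : ℂ)) :=
    hc.comp_left (g := fun t : ℝ => (t : ℂ)) Complex.ofReal_zero
  have hs' : ContDiff ℝ ∞ (fun x => (ψ x : ℂ)) := Complex.ofRealCLM.contDiff.comp hs
  set F : 𝓢(ℝ, ℂ) := hc'.toSchwartzMap hs' with hF
  set G : 𝓢(ℝ, ℂ) := 𝓕⁻ F with hG
  obtain ⟨B1, hB1, hb1⟩ := schwartz_decay F
  obtain ⟨B2, hB2, hb2⟩ := schwartz_decay G
  have hFx : ∀ x, F x = (ψ x : ℂ) := fun x => rfl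
  have hGint : ∀ y, G y = ∫ v : ℝ, Complex.exp (↑(2 * π * (v * y)) * Complex.I) * (ψ v : ℂ) := by
    intro y
    rw [hG, SchwartzMap.fourierInv_coe, Real.fourierInv_eq']
    refine integral_congr_ae (Filter.Eventually.of_forall fun v => ?_)
    simp only [smul_eq_mul, hFx]
    rw [show (inner ℝ v y : ℝ) = v * y from by simp [mul_comm]]
  have hreal : ∀ y, conj (G y) = G y := by
    intro y
    rw [hGint y, ← integral_conj, ← integral_neg_eq_self]
    refine integral_congr_ae (Filter.Eventually.of_forall fun v => ?_)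
    beta_reduce
    rw [he v, map_mul, Complex.conj_ofReal, ← Complex.exp_conj, map_mul, Complex.conj_ofReal,
      Complex.conj_I]
    congr 2
    push_cast
    ring
  have hG' : ∀ y, ((G y).re : ℂ) = G y := fun y => Complex.conj_eq_iff_re.mp (hreal y)
  have hGf : (fun y => ((G y).re : ℂ)) = (G : ℝ → ℂ) := funext hG'
  refine ⟨fun y => (G y).re, B1 + B2, by positivity, ?_⟩
  refine ⟨?_, ?_, ?_, ?_, ?_⟩
  · rw [hGf]; exact G.continuous
  · exact F.continuous
  · intro y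
    rw [hG' y]
    refine (hb2 y).trans ?_
    gcongr
    linarith
  · intro y
    rw [← hFx y]
    refine (hb1 y).trans ?_
    gcongr
    linarith
  · intro ξ
    rw [hGf, ← SchwartzMap.fourier_coe, hG, FourierTransform.fourier_fourierInv_eq]
    exact hFx ξ

/-- summing up Fourier pairs -/
lemma sum_pairs (gg ψ : ℕ → ℝ → ℝ) (B : ℕ → ℝ) (hB : ∀ R, 0 ≤ B R)
    (hN : ∀ R, Nice (fun y => (gg R y : ℂ)) (fun ξ => (ψ R ξ : ℂ)) (B R)) :
    Nice (fun y => ((∑' R, (1 / 2 : ℝ) ^ R / (1 + B R) * gg R y : ℝ) : ℂ))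
      (fun ξ => ((∑' R, (1 / 2 : ℝ) ^ R / (1 + B R) * ψ R ξ : ℝ) : ℂ)) 2 ∧
    ∀ ξ, Summable fun R => (1 / 2 : ℝ) ^ R / (1 + B R) * ψ R ξ := by
  have hgeo : Summable fun R : ℕ => (1 / 2 : ℝ) ^ R := summable_geometric_two
  have hgs : ∑' R : ℕ, (1 / 2 : ℝ) ^ R = 2 := tsum_geometric_two
  have key : ∀ (R : ℕ) (a x : ℝ), |a| ≤ B R / (1 + x ^ 2) →
      |(1 / 2 : ℝ) ^ R / (1 + B R) * a| ≤ (1 / 2 : ℝ) ^ R * (1 / (1 + x ^ 2)) := by
    intro R a x h
    have h1 : 0 < 1 + B R := by linarith [hB R]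
    have h2 : 0 < 1 + x ^ 2 := by positivity
    rw [abs_mul, abs_of_nonneg (by positivity), div_mul_eq_mul_div, div_le_iff₀ h1]
    have h3 : |a| ≤ 1 / (1 + x ^ 2) * (1 + B R) := by
      refine h.trans ?_
      rw [div_mul_eq_mul_div, one_mul]
      gcongr
      linarith
    calc (1 / 2 : ℝ) ^ R * |a| ≤ (1 / 2 : ℝ) ^ R * (1 / (1 + x ^ 2) * (1 + B R)) := by gcongr
      _ = _ := by ring
  have hgb : ∀ R y, |(1 / 2 : ℝ) ^ R / (1 + B R) * gg R y| ≤
      (1 / 2 : ℝ) ^ R * (1 / (1 + y ^ 2)) := by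
    intro R y
    apply key
    have := (hN R).bound y
    rwa [Complex.norm_real, Real.norm_eq_abs] at this
  have hψb : ∀ R y, |(1 / 2 : ℝ) ^ R / (1 + B R) * ψ R y| ≤
      (1 / 2 : ℝ) ^ R * (1 / (1 + y ^ 2)) := by
    intro R y
    apply key
    have := (hN R).boundF y
    rwa [Complex.norm_real, Real.norm_eq_abs] at this
  have hle1 : ∀ y : ℝ, 1 / (1 + y ^ 2) ≤ 1 := by
    intro y
    rw [div_le_one (by positivity)]
    nlinarith [sq_nonneg y]
  have hsg : ∀ y, Summable fun R => (1 / 2 : ℝ) ^ R / (1 + B R) * gg R y := by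
    intro y
    refine Summable.of_norm_bounded (hgeo.mul_right (1 / (1 + y ^ 2))) fun R => ?_
    rw [Real.norm_eq_abs]
    exact hgb R y
  have hsψ : ∀ y, Summable fun R => (1 / 2 : ℝ) ^ R / (1 + B R) * ψ R y := by
    intro y
    refine Summable.of_norm_bounded (hgeo.mul_right (1 / (1 + y ^ 2))) fun R => ?_
    rw [Real.norm_eq_abs]
    exact hψb R y
  have hcg : ∀ R, Continuous (gg R) := fun R => by
    have h := Complex.continuous_re.comp (hN R).cont
    exact h
  have hcψ : ∀ R, Continuous (ψ R) := fun R => by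
    have h := Complex.continuous_re.comp (hN R).contF
    exact h
  have hbd : ∀ (f : ℕ → ℝ → ℝ), (∀ R y, |f R y| ≤ (1 / 2 : ℝ) ^ R * (1 / (1 + y ^ 2))) →
      ∀ y, ‖((∑' R, f R y : ℝ) : ℂ)‖ ≤ 2 / (1 + y ^ 2) := by
    intro f hf y
    rw [Complex.norm_real]
    have h1 : ‖∑' R, f R y‖ ≤ ∑' R : ℕ, (1 / 2 : ℝ) ^ R * (1 / (1 + y ^ 2)) := by
      refine tsum_of_norm_bounded (hgeo.mul_right (1 / (1 + y ^ 2))).hasSum fun R => ?_
      rw [Real.norm_eq_abs]
      exact hf R y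
    rw [tsum_mul_right, hgs] at h1
    rw [div_eq_mul_one_div]
    exact h1
  have hcont : ∀ (f : ℕ → ℝ → ℝ), (∀ R y, |f R y| ≤ (1 / 2 : ℝ) ^ R * (1 / (1 + y ^ 2))) →
      (∀ R, Continuous (f R)) → Continuous fun y => ((∑' R, f R y : ℝ) : ℂ) := by
    intro f hf hfc
    refine Complex.continuous_ofReal.comp (continuous_tsum hfc hgeo fun R y => ?_)
    rw [Real.norm_eq_abs]
    refine (hf R y).trans ?_
    calc (1 / 2 : ℝ) ^ R * (1 / (1 + y ^ 2)) ≤ (1 / 2 : ℝ) ^ R * 1 := by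
          gcongr
          exact hle1 y
      _ = _ := mul_one _
  refine ⟨⟨?_, ?_, ?_, ?_, ?_⟩, hsψ⟩
  · exact hcont _ hgb fun R => continuous_const.mul (hcg R)
  · exact hcont _ hψb fun R => continuous_const.mul (hcψ R)
  · exact hbd _ hgb
  · exact hbd _ hψb
  · intro ξ
    have hI0 : Integrable fun y : ℝ => 1 / (1 + y ^ 2) := by
      have := integrable_inv_one_add_sq
      refine this.congr (Filter.Eventually.of_forall fun y => ?_)
      simp
    have hexpn : ∀ y : ℝ, ‖Complex.exp (↑(-2 * π * y * ξ) * Complex.I)‖ = 1 := fun y =>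
      Complex.norm_exp_ofReal_mul_I _
    set f : ℕ → ℝ → ℂ := fun R y => Complex.exp (↑(-2 * π * y * ξ) * Complex.I) •
      (((1 / 2 : ℝ) ^ R / (1 + B R) * gg R y : ℝ) : ℂ) with hf
    have hfn : ∀ R y, ‖f R y‖ ≤ (1 / 2 : ℝ) ^ R * (1 / (1 + y ^ 2)) := by
      intro R y
      rw [hf]
      beta_reduce
      rw [norm_smul, hexpn, one_mul, Complex.norm_real, Real.norm_eq_abs]
      exact hgb R y
    have hfc : ∀ R, Continuous (f R) := by
      intro R
      rw [hf]
      beta_reduce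
      have h5 : Continuous fun y : ℝ => Complex.exp (↑(-2 * π * y * ξ) * Complex.I) := by
        fun_prop
      exact h5.smul (Complex.continuous_ofReal.comp (continuous_const.mul (hcg R)))
    have hfi : ∀ R, Integrable (f R) := by
      intro R
      refine (hI0.const_mul ((1 / 2 : ℝ) ^ R)).mono' (hfc R).aestronglyMeasurable ?_
      exact Filter.Eventually.of_forall fun y => hfn R y
    have hfs : Summable fun R => ∫ y, ‖f R y‖ := by
      refine Summable.of_nonneg_of_le (fun R => integral_nonneg fun y => norm_nonneg _)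
        (fun R => ?_) (hgeo.mul_right (∫ y : ℝ, 1 / (1 + y ^ 2)))
      rw [← integral_const_mul]
      exact integral_mono (hfi R).norm (hI0.const_mul _) fun y => hfn R y
    have hex := integral_tsum_of_summable_integral_norm hfi hfs
    rw [Real.fourier_real_eq_integral_exp_smul]
    have h1 : ∀ y : ℝ, Complex.exp (↑(-2 * π * y * ξ) * Complex.I) •
        ((∑' R, (1 / 2 : ℝ) ^ R / (1 + B R) * gg R y : ℝ) : ℂ) = ∑' R, f R y := by
      intro y
      rw [hf]
      beta_reduce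
      rw [Complex.ofReal_tsum]
      simp only [smul_eq_mul]
      rw [tsum_mul_left]
    rw [integral_congr_ae (Filter.Eventually.of_forall h1), ← hex, Complex.ofReal_tsum]
    refine tsum_congr fun R => ?_
    have h2 : ∀ y, f R y = (((1 / 2 : ℝ) ^ R / (1 + B R) : ℝ) : ℂ) *
        (Complex.exp (↑(-2 * π * y * ξ) * Complex.I) • (gg R y : ℂ)) := by
      intro y
      rw [hf]
      beta_reduce
      rw [smul_eq_mul, smul_eq_mul, Complex.ofReal_mul ((1 / 2 : ℝ) ^ R / (1 + B R)) (gg R y)]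
      ring
    rw [integral_congr_ae (Filter.Eventually.of_forall h2), integral_const_mul,
      ← Real.fourier_real_eq_integral_exp_smul, (hN R).fourier ξ, Complex.ofReal_mul]

/-- the kernel statement -/
theorem t_kernel : S_kernel := by
  intro Z hZ hsym
  obtain ⟨u, hu, hus, hur⟩ := hZ.isOpen_compl.exists_contDiff_support_eq (n := ⊤)
  have hu0 : ∀ x, 0 ≤ u x := fun x => (hur (Set.mem_range_self x)).1
  have huZ : ∀ x, u x = 0 ↔ x ∈ Z := by
    intro x
    have h : x ∈ Function.support u ↔ x ∈ Zᶜ := by rw [hu]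
    rw [Function.mem_support, Set.mem_compl_iff] at h
    tauto
  set v : ℝ → ℝ := fun x => u x + u (-x) with hv
  have hvs : ContDiff ℝ ∞ v := hus.add (hus.comp contDiff_neg)
  have hve : ∀ x, v (-x) = v x := fun x => by simp [hv, add_comm]
  have hv0 : ∀ x, 0 ≤ v x := fun x => add_nonneg (hu0 _) (hu0 _)
  have hvZ : ∀ x, v x = 0 ↔ x ∈ Z := by
    intro x
    constructor
    · intro h
      have h1 := hu0 x
      have h2 := hu0 (-x)
      have h3 : u x + u (-x) = 0 := h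
      exact (huZ x).1 (by linarith)
    · intro h
      have h1 := (huZ x).2 h
      have h2 := (huZ (-x)).2 (hsym x h)
      show u x + u (-x) = 0
      rw [h1, h2, add_zero]
  let χ : ℕ → ContDiffBump (0 : ℝ) := fun R => ⟨(R : ℝ) + 1, (R : ℝ) + 2, by positivity,
    by linarith⟩
  set ψ : ℕ → ℝ → ℝ := fun R x => v x * χ R x with hψ
  have hp : ∀ R, ∃ (g : ℝ → ℝ) (B : ℝ), 0 ≤ B ∧
      Nice (fun y => (g y : ℂ)) (fun ξ => (ψ R ξ : ℂ)) B := by
    intro R
    refine piece (ψ R) (hvs.mul (χ R).contDiff) ((χ R).hasCompactSupport.mul_left) ?_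
    intro x
    show v (-x) * χ R (-x) = v x * χ R x
    rw [hve, (χ R).neg]
  choose gg B hB hN using hp
  obtain ⟨hnice, hsum⟩ := sum_pairs gg ψ B hB hN
  have hnn : ∀ R ξ, 0 ≤ (1 / 2 : ℝ) ^ R / (1 + B R) * ψ R ξ := by
    intro R ξ
    have h1 := hB R
    have h2 : 0 ≤ ψ R ξ := mul_nonneg (hv0 ξ) (χ R).nonneg
    positivity
  refine ⟨_, _, _, hnice, fun ξ => tsum_nonneg fun R => hnn R ξ, fun ξ => ?_⟩
  rw [← hvZ ξ]
  constructor
  · intro h
    by_contra hne
    have hpos : 0 < v ξ := lt_of_le_of_ne (hv0 ξ) (Ne.symm hne)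
    obtain ⟨R, hR⟩ := exists_nat_ge |ξ|
    have hχ : χ R ξ = 1 := by
      apply (χ R).one_of_mem_closedBall
      rw [Metric.mem_closedBall, dist_zero_right, Real.norm_eq_abs]
      show |ξ| ≤ (R : ℝ) + 1
      linarith
    have h3 : 0 < (1 / 2 : ℝ) ^ R / (1 + B R) * ψ R ξ := by
      have h1 := hB R
      have h2 : ψ R ξ = v ξ := by
        show v ξ * χ R ξ = v ξ
        rw [hχ, mul_one]
      rw [h2]
      positivity
    have h4 := (hsum ξ).tsum_pos (fun R => hnn R ξ) R h3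
    exact absurd h (ne_of_gt h4)
  · intro h
    have h1 : ∀ R, (1 / 2 : ℝ) ^ R / (1 + B R) * ψ R ξ = 0 := by
      intro R
      have h2 : ψ R ξ = 0 := by
        show v ξ * χ R ξ = 0
        rw [h, zero_mul]
      rw [h2, mul_zero]
    rw [tsum_congr h1, tsum_zero]

end

end Pool.Agent.H294.LT
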