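import Pool.Agent.H998.LT.Defs

set_option autoImplicit false

/-!
# Multiples outside the closure of the bad set
-/

open MeasureTheory Real

namespace Pool.Agent.H294.LT

open Pool.Agent.H998.LT

namespace Mult

lemma s2pos : 0 < √(2 : ℝ) := by positivity

lemma s2sq : √(2 : ℝ) * √2 = 2 := Real.mul_self_sqrt (by norm_num)

/-- uniqueness of representations -/
lemma uniq {a b c d : ℤ} (h : (a : ℝ) + b / √2 = c + d / √2) : a = c ∧ b = d := by
  have h0 := s2pos
  have h1 : ((a - c : ℤ) : ℝ) * √2 = ((d - b : ℤ) : ℝ) := by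
    push_cast
    field_simp at h
    linarith
  by_cases hac : a = c
  · refine ⟨hac, ?_⟩
    subst hac
    rw [sub_self, Int.cast_zero, zero_mul] at h1
    have h2 : (d - b : ℤ) = 0 := by exact_mod_cast h1.symm
    omega
  · exfalso
    have h3 : ((a - c : ℤ) : ℝ) ≠ 0 := by
      have : a - c ≠ 0 := sub_ne_zero.mpr hac
      exact_mod_cast this
    have h4 : √2 = ((d - b : ℤ) : ℝ) / ((a - c : ℤ) : ℝ) := by
      rw [eq_div_iff h3, mul_comm]; exact h1
    have h5 := irrational_sqrt_two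
    apply h5
    refine ⟨((d - b : ℤ) : ℚ) / ((a - c : ℤ) : ℚ), ?_⟩
    rw [h4]; push_cast; ring

/-- a subset of the integers is discrete -/
lemma disc (P : ℤ → Prop) (p : ℝ) (h : ∀ k : ℤ, P k → p ≠ k) :
    ∃ δ : ℝ, 0 < δ ∧ ∀ k : ℤ, P k → δ ≤ |p - k| := by
  by_cases hp : ∃ k0 : ℤ, p = k0
  · obtain ⟨k0, rfl⟩ := hp
    refine ⟨1, one_pos, fun k hk => ?_⟩
    have h1 : k0 ≠ k := fun hh => h k hk (by rw [hh])
    have h2 : (1 : ℤ) ≤ |k0 - k| := Int.one_le_abs (sub_ne_zero.mpr h1)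
    have h3 : ((1 : ℤ) : ℝ) ≤ ((|k0 - k| : ℤ) : ℝ) := by exact_mod_cast h2
    rw [Int.cast_abs, Int.cast_sub] at h3
    simpa using h3
  · push Not at hp
    refine ⟨|p - round p|, abs_pos.mpr (sub_ne_zero.mpr (hp _)), fun k _ => round_le p k⟩

/-- criterion -/
lemma crit (hgap : S_gap) {m : ℕ → ℕ} (hm : IsSeq m) {p : ℝ} (hp : p ∉ Bad m)
    (b1 : ∀ z : ℤ, p ≠ 1 / 4 + z) (b2 : ∀ z : ℤ, p ≠ -(1 / 4) + z)
    (b3 : ∀ z : ℤ, √2 * p ≠ 1 / 2 + z) (b4 : ∀ z : ℤ, √2 * p ≠ -(1 / 2) + z) :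
    p ∉ closure (Bad m) := by
  have h0 := s2pos
  have hsq := s2sq
  -- the limits modulo one
  have hlim : ∀ ε : ℝ, 0 < ε → ∃ l0 : ℕ, ∀ l ≥ l0, 1 / ((l : ℝ) + 1) ≤ ε := by
    intro ε hε
    obtain ⟨l0, hl0⟩ := exists_nat_gt (1 / ε)
    refine ⟨l0, fun l hl => ?_⟩
    have h1 : (l0 : ℝ) ≤ l := by exact_mod_cast hl
    rw [div_le_iff₀ (by positivity)]
    rw [div_lt_iff₀ hε] at hl0
    nlinarith
  obtain ⟨δ1, hδ1, h1⟩ := disc (fun k => k ≠ 0 ∧ ∀ l, k ≠ m l ∧ k ≠ -(m l : ℤ)) p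
    (fun k hk hpk => hp (Or.inl ⟨k, hk.1, hk.2, Or.inl hpk⟩))
  obtain ⟨δ2, hδ2, h2⟩ := disc (fun k => k ≠ 0 ∧ ∀ l, k ≠ m l ∧ k ≠ -(m l : ℤ)) (√2 * p)
    (fun k hk hpk => hp (Or.inl ⟨k, hk.1, hk.2, Or.inr (by rw [← hpk]; field_simp)⟩))
  obtain ⟨δ3, hδ3, h3⟩ := hgap (fun l => (m l : ℝ) / √2) (1 / 4) p (by
      intro ε hε
      obtain ⟨l0, hl0⟩ := hlim ε hε
      refine ⟨l0, fun l hl => ?_⟩
      obtain ⟨z, hz⟩ := hm.quarter l
      exact ⟨z, hz.trans (hl0 l hl)⟩) b1 (by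
      intro l k hk hpk
      exact hp (Or.inr ⟨k, hk, l, Or.inl hpk⟩))
  obtain ⟨δ4, hδ4, h4⟩ := hgap (fun l => -((m l : ℝ) / √2)) (-(1 / 4)) p (by
      intro ε hε
      obtain ⟨l0, hl0⟩ := hlim ε hε
      refine ⟨l0, fun l hl => ?_⟩
      obtain ⟨z, hz⟩ := hm.quarter l
      refine ⟨-z, ?_⟩
      have e1 : -((m l : ℝ) / √2) - -(1 / 4) - ((-z : ℤ) : ℝ) = -((m l : ℝ) / √2 - 1 / 4 - z) := by
        push_cast; ring
      rw [e1, abs_neg]
      exact hz.trans (hl0 l hl)) b2 (by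
      intro l k hk hpk
      exact hp (Or.inr ⟨k, hk, l, Or.inr (Or.inl (by rw [hpk]; ring))⟩))
  obtain ⟨δ5, hδ5, h5⟩ := hgap (fun l => √2 * (m l : ℝ)) (1 / 2) (√2 * p) (by
      intro ε hε
      obtain ⟨l0, hl0⟩ := hlim (ε / 2) (by positivity)
      refine ⟨l0, fun l hl => ?_⟩
      obtain ⟨z, hz⟩ := hm.quarter l
      refine ⟨2 * z, ?_⟩
      have e0 : √2 * (m l : ℝ) = 2 * ((m l : ℝ) / √2) := by
        field_simp; rw [Real.sq_sqrt (by norm_num)]; ring
      have e1 : √2 * (m l : ℝ) - 1 / 2 - ((2 * z : ℤ) : ℝ) = 2 * ((m l : ℝ) / √2 - 1 / 4 - z) := by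
        rw [e0]; push_cast; ring
      rw [e1, abs_mul, abs_of_pos (by norm_num : (0 : ℝ) < 2)]
      have := hz.trans (hl0 l hl)
      linarith) b3 (by
      intro l k hk hpk
      refine hp (Or.inr ⟨k, hk, l, Or.inr (Or.inr (Or.inl ?_))⟩)
      have : p = (√2 * p) / √2 := by field_simp
      rw [this, hpk]; field_simp)
  obtain ⟨δ6, hδ6, h6⟩ := hgap (fun l => -(√2 * (m l : ℝ))) (-(1 / 2)) (√2 * p) (by
      intro ε hε
      obtain ⟨l0, hl0⟩ := hlim (ε / 2) (by positivity)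
      refine ⟨l0, fun l hl => ?_⟩
      obtain ⟨z, hz⟩ := hm.quarter l
      refine ⟨-(2 * z), ?_⟩
      have e0 : √2 * (m l : ℝ) = 2 * ((m l : ℝ) / √2) := by
        field_simp; rw [Real.sq_sqrt (by norm_num)]; ring
      have e1 : -(√2 * (m l : ℝ)) - -(1 / 2) - ((-(2 * z) : ℤ) : ℝ) =
          -(2 * ((m l : ℝ) / √2 - 1 / 4 - z)) := by
        rw [e0]; push_cast; ring
      rw [e1, abs_neg, abs_mul, abs_of_pos (by norm_num : (0 : ℝ) < 2)]
      have := hz.trans (hl0 l hl)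
      linarith) b4 (by
      intro l k hk hpk
      refine hp (Or.inr ⟨k, hk, l, Or.inr (Or.inr (Or.inr ?_))⟩)
      have : p = (√2 * p) / √2 := by field_simp
      rw [this, hpk]; field_simp; ring)
  -- the minimum
  obtain ⟨δ, hδ⟩ : ∃ δ, δ = min (min δ1 (min δ3 δ4)) (min δ2 (min δ5 δ6) / √2) := ⟨_, rfl⟩
  have hδ0 : 0 < δ := by rw [hδ]; positivity
  have hd1 : δ ≤ δ1 := by rw [hδ]; exact (min_le_left _ _).trans (min_le_left _ _)
  have hd3 : δ ≤ δ3 := by
    rw [hδ]; exact ((min_le_left _ _).trans (min_le_right _ _)).trans (min_le_left _ _)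
  have hd4 : δ ≤ δ4 := by
    rw [hδ]; exact ((min_le_left _ _).trans (min_le_right _ _)).trans (min_le_right _ _)
  have hdd : δ ≤ min δ2 (min δ5 δ6) / √2 := by rw [hδ]; exact min_le_right _ _
  have hd2 : δ * √2 ≤ δ2 := by
    rw [le_div_iff₀ h0] at hdd; exact hdd.trans (min_le_left _ _)
  have hd5 : δ * √2 ≤ δ5 := by
    rw [le_div_iff₀ h0] at hdd; exact (hdd.trans (min_le_right _ _)).trans (min_le_left _ _)
  have hd6 : δ * √2 ≤ δ6 := by
    rw [le_div_iff₀ h0] at hdd; exact (hdd.trans (min_le_right _ _)).trans (min_le_right _ _)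
  -- scaling
  have hscale : ∀ q : ℝ, δ * √2 ≤ |√2 * p - q| → δ ≤ |p - q / √2| := by
    intro q hq
    have e1 : √2 * p - q = (p - q / √2) * √2 := by field_simp
    rw [e1, abs_mul, abs_of_pos h0] at hq
    exact le_of_mul_le_mul_right hq h0
  rw [Metric.mem_closure_iff]
  push Not
  refine ⟨δ, hδ0, ?_⟩
  rintro ξ (⟨k, hk, hkl, rfl | rfl⟩ | ⟨k, hk, l, rfl | rfl | rfl | rfl⟩)
  · rw [Real.dist_eq]; exact hd1.trans (h1 k ⟨hk, hkl⟩)
  · rw [Real.dist_eq]; exact hscale _ (hd2.trans (h2 k ⟨hk, hkl⟩))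
  · rw [Real.dist_eq]; exact hd3.trans (h3 l k hk)
  · rw [Real.dist_eq]
    have := h4 l k hk
    rw [← sub_eq_add_neg] at this
    exact hd4.trans this
  · rw [Real.dist_eq]
    have e1 : (k : ℝ) / √2 + m l = (k + √2 * m l) / √2 := by field_simp
    rw [e1]
    exact hscale _ (hd5.trans (h5 l k hk))
  · rw [Real.dist_eq]
    have e1 : (k : ℝ) / √2 - m l = (k + -(√2 * m l)) / √2 := by field_simp; ring
    rw [e1]
    exact hscale _ (hd6.trans (h6 l k hk))

/-- points `a + b / √2` -/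
lemma intcase (hgap : S_gap) {m : ℕ → ℕ} (hm : IsSeq m) {a b : ℤ}
    (h1 : b = 0 → a = 0 ∨ ∃ l, a = m l ∨ a = -(m l : ℤ))
    (h2 : a = 0 → b = 0 ∨ ∃ l, b = m l ∨ b = -(m l : ℤ))
    (h3 : a ≠ 0 → ∀ l, b ≠ m l ∧ b ≠ -(m l : ℤ))
    (h4 : b ≠ 0 → ∀ l, a ≠ m l ∧ a ≠ -(m l : ℤ)) :
    ((a : ℝ) + b / √2) ∉ closure (Bad m) := by
  have h0 := s2pos
  refine crit hgap hm ?_ ?_ ?_ ?_ ?_
  · rintro (⟨k, hk, hkl, h | h⟩ | ⟨k, hk, l, h | h | h | h⟩)
    · have h5 : (a : ℝ) + b / √2 = k + ((0 : ℤ) : ℝ) / √2 := by rw [h]; simp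
      obtain ⟨h6, h7⟩ := uniq h5
      rcases h1 h7 with h8 | ⟨l, h8 | h8⟩
      · exact hk (by rw [← h6, h8])
      · exact (hkl l).1 (by rw [← h6, h8])
      · exact (hkl l).2 (by rw [← h6, h8])
    · have h5 : (a : ℝ) + b / √2 = ((0 : ℤ) : ℝ) + k / √2 := by rw [h]; simp
      obtain ⟨h6, h7⟩ := uniq h5
      rcases h2 h6 with h8 | ⟨l, h8 | h8⟩
      · exact hk (by rw [← h7, h8])
      · exact (hkl l).1 (by rw [← h7, h8])
      · exact (hkl l).2 (by rw [← h7, h8])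
    · have h5 : (a : ℝ) + b / √2 = (k : ℝ) + ((m l : ℤ) : ℝ) / √2 := by rw [h]; push_cast; ring
      obtain ⟨h6, h7⟩ := uniq h5
      exact (h3 (by rw [h6]; exact hk) l).1 h7
    · have h5 : (a : ℝ) + b / √2 = (k : ℝ) + ((-(m l : ℤ) : ℤ) : ℝ) / √2 := by
        rw [h]; push_cast; ring
      obtain ⟨h6, h7⟩ := uniq h5
      exact (h3 (by rw [h6]; exact hk) l).2 h7
    · have h5 : (a : ℝ) + b / √2 = ((m l : ℤ) : ℝ) + (k : ℝ) / √2 := by rw [h]; push_cast; ring
      obtain ⟨h6, h7⟩ := uniq h5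
      exact (h4 (by rw [h7]; exact hk) l).1 h6
    · have h5 : (a : ℝ) + b / √2 = ((-(m l : ℤ) : ℤ) : ℝ) + (k : ℝ) / √2 := by
        rw [h]; push_cast; ring
      obtain ⟨h6, h7⟩ := uniq h5
      exact (h4 (by rw [h7]; exact hk) l).2 h6
  · intro z hz
    have h5 : ((4 * a : ℤ) : ℝ) + ((4 * b : ℤ) : ℝ) / √2 = ((1 + 4 * z : ℤ) : ℝ) +
        ((0 : ℤ) : ℝ) / √2 := by
      push_cast
      have : (4 : ℝ) * a + 4 * b / √2 = 4 * (a + b / √2) := by ring
      rw [this, hz]; ring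
    have := (uniq h5).1
    omega
  · intro z hz
    have h5 : ((4 * a : ℤ) : ℝ) + ((4 * b : ℤ) : ℝ) / √2 = ((-1 + 4 * z : ℤ) : ℝ) +
        ((0 : ℤ) : ℝ) / √2 := by
      push_cast
      have : (4 : ℝ) * a + 4 * b / √2 = 4 * (a + b / √2) := by ring
      rw [this, hz]; ring
    have := (uniq h5).1
    omega
  · intro z hz
    have h5 : ((2 * b : ℤ) : ℝ) + ((4 * a : ℤ) : ℝ) / √2 = ((1 + 2 * z : ℤ) : ℝ) +
        ((0 : ℤ) : ℝ) / √2 := by
      push_cast
      have e1 : (4 : ℝ) * a / √2 = 2 * (√2 * a) := by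
        rw [div_eq_iff h0.ne']
        have := s2sq
        linear_combination (-2 * (a : ℝ)) * this
      have e2 : √2 * ((a : ℝ) + b / √2) = √2 * a + b := by
        rw [mul_add, mul_div_cancel₀ _ h0.ne']
      rw [e2] at hz
      rw [e1, zero_div]
      linarith
    have := (uniq h5).1
    omega
  · intro z hz
    have h5 : ((2 * b : ℤ) : ℝ) + ((4 * a : ℤ) : ℝ) / √2 = ((-1 + 2 * z : ℤ) : ℝ) +
        ((0 : ℤ) : ℝ) / √2 := by
      push_cast
      have e1 : (4 : ℝ) * a / √2 = 2 * (√2 * a) := by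
        rw [div_eq_iff h0.ne']
        have := s2sq
        linear_combination (-2 * (a : ℝ)) * this
      have e2 : √2 * ((a : ℝ) + b / √2) = √2 * a + b := by
        rw [mul_add, mul_div_cancel₀ _ h0.ne']
      rw [e2] at hz
      rw [e1, zero_div]
      linarith
    have := (uniq h5).1
    omega

/-- the sequence grows -/
lemma grow16 {m : ℕ → ℕ} (hm : IsSeq m) (l : ℕ) : 16 * m l ≤ m (l + 1) := by
  refine le_trans (Nat.mul_le_mul_right _ ?_) (hm.grow l)
  calc 16 = 2 ^ 4 := by norm_num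
    _ ≤ 2 ^ (l + 4) := Nat.pow_le_pow_right (by norm_num) (by omega)

lemma grow16' {m : ℕ → ℕ} (hm : IsSeq m) {l l' : ℕ} (h : l < l') : 16 * m l ≤ m l' := by
  have hmono : Monotone m := monotone_nat_of_le_succ fun n => by
    have := grow16 hm n
    omega
  exact (grow16 hm l).trans (hmono h)

/-- two multiples `i c`, `j c` with `i, j ≤ 3` are not both in the sequence -/
lemma two {m : ℕ → ℕ} (hm : IsSeq m) {c i j l l' : ℕ} (hc : 0 < c) (hi : 1 ≤ i) (hj : 1 ≤ j)
    (hi3 : i ≤ 3) (hj3 : j ≤ 3) (h1 : i * c = m l) (h2 : j * c = m l') : i = j := by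
  rcases lt_trichotomy l l' with h | h | h
  · exfalso
    have h3 := grow16' hm h
    rw [← h1, ← h2] at h3
    nlinarith
  · subst h
    rw [← h2] at h1
    exact Nat.eq_of_mul_eq_mul_right hc h1
  · exfalso
    have h3 := grow16' hm h
    rw [← h1, ← h2] at h3
    nlinarith

lemma choose3 {m : ℕ → ℕ} (hm : IsSeq m) {a b : ℕ} (ha : 0 < a) (hb : 0 < b) :
    ∃ i : ℕ, 1 ≤ i ∧ (∀ l, i * a ≠ m l) ∧ ∀ l, i * b ≠ m l := by
  by_contra hcon
  push Not at hcon
  have key : ∀ i : ℕ, 1 ≤ i → (∃ l, i * a = m l) ∨ ∃ l, i * b = m l := by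
    intro i hi
    by_cases h : ∃ l, i * a = m l
    · exact Or.inl h
    · push Not at h
      exact Or.inr (hcon i hi h)
  rcases key 1 le_rfl with ⟨l1, h1⟩ | ⟨l1, h1⟩ <;> rcases key 2 (by norm_num) with ⟨l2, h2⟩ | ⟨l2, h2⟩
    <;> rcases key 3 (by norm_num) with ⟨l3, h3⟩ | ⟨l3, h3⟩
  · exact absurd (two hm ha (by norm_num) (by norm_num) (by norm_num) (by norm_num) h1 h2) (by norm_num)
  · exact absurd (two hm ha (by norm_num) (by norm_num) (by norm_num) (by norm_num) h1 h2) (by norm_num)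
  · exact absurd (two hm ha (by norm_num) (by norm_num) (by norm_num) (by norm_num) h1 h3) (by norm_num)
  · exact absurd (two hm hb (by norm_num) (by norm_num) (by norm_num) (by norm_num) h2 h3) (by norm_num)
  · exact absurd (two hm ha (by norm_num) (by norm_num) (by norm_num) (by norm_num) h2 h3) (by norm_num)
  · exact absurd (two hm hb (by norm_num) (by norm_num) (by norm_num) (by norm_num) h1 h3) (by norm_num)
  · exact absurd (two hm hb (by norm_num) (by norm_num) (by norm_num) (by norm_num) h1 h2) (by norm_num)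
  · exact absurd (two hm hb (by norm_num) (by norm_num) (by norm_num) (by norm_num) h1 h2) (by norm_num)

/-- every nonzero integer divides a member of the sequence -/
lemma dvd_seq {m : ℕ → ℕ} (hm : IsSeq m) {a : ℤ} (ha : a ≠ 0) :
    ∃ (l : ℕ) (c : ℤ), c ≠ 0 ∧ c * a = m l := by
  obtain ⟨n, hn⟩ : ∃ n : ℕ, a.natAbs = n + 1 :=
    Nat.exists_eq_succ_of_ne_zero (Int.natAbs_ne_zero.mpr ha)
  have h1 : n + 1 ∣ m (n + 1) :=
    Dvd.dvd.trans (Dvd.intro_left 8 rfl |>.mul_right (m n)) (hm.div n)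
  have h2 : a ∣ (m (n + 1) : ℤ) := by
    rw [← Int.natAbs_dvd, hn]
    exact_mod_cast h1
  obtain ⟨c, hc⟩ := h2
  refine ⟨n + 1, c, ?_, by rw [hc]; ring⟩
  rintro rfl
  rw [mul_zero] at hc
  have := hm.pos (n + 1)
  omega

end Mult

open Mult in
theorem t_mult : S_gap → S_mult := by
  intro hgap m hm
  have h0 := s2pos
  have hpos : ∀ l, (m l : ℤ) ≠ 0 := fun l => by have := hm.pos l; omega
  have hneg : ∀ l, -(m l : ℤ) ≠ 0 := fun l => by have := hm.pos l; omega
  constructor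
  · have h1 := intcase hgap hm (a := 0) (b := 0) (fun _ => Or.inl rfl) (fun _ => Or.inl rfl)
      (fun h => absurd rfl h) (fun h => absurd rfl h)
    simpa using h1
  · intro x hx
    by_cases hrep : ∃ j a b : ℤ, j ≠ 0 ∧ (j : ℝ) * x = a + b / √2
    · obtain ⟨j, a, b, hj, hab⟩ := hrep
      have hjx : (j : ℝ) * x ≠ 0 := mul_ne_zero (by exact_mod_cast hj) hx
      by_cases hb : b = 0
      · have ha : a ≠ 0 := by
          rintro rfl
          apply hjx
          rw [hab, hb]; simp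
        obtain ⟨l, c, hc, hca⟩ := dvd_seq hm ha
        refine ⟨c * j, mul_ne_zero hc hj, ?_⟩
        have e1 : (((c * j : ℤ)) : ℝ) * x = (((m l : ℤ)) : ℝ) + ((0 : ℤ) : ℝ) / √2 := by
          rw [← hca]; push_cast
          rw [mul_assoc, hab, hb]; simp
        rw [e1]
        exact intcase hgap hm (fun _ => Or.inr ⟨l, Or.inl rfl⟩) (fun h => absurd h (hpos l))
          (fun _ l' => ⟨(hpos l').symm, (hneg l').symm⟩) (fun h => absurd rfl h)
      · by_cases ha : a = 0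
        · obtain ⟨l, c, hc, hcb⟩ := dvd_seq hm hb
          refine ⟨c * j, mul_ne_zero hc hj, ?_⟩
          have e1 : (((c * j : ℤ)) : ℝ) * x = ((0 : ℤ) : ℝ) + (((m l : ℤ)) : ℝ) / √2 := by
            rw [← hcb]; push_cast
            rw [mul_assoc, hab, ha]; simp; ring
          rw [e1]
          exact intcase hgap hm (fun h => absurd h (hpos l)) (fun _ => Or.inr ⟨l, Or.inl rfl⟩)
            (fun h => absurd rfl h) (fun _ l' => ⟨(hpos l').symm, (hneg l').symm⟩)
        · obtain ⟨i, hi, hia, hib⟩ := choose3 hm (Int.natAbs_pos.mpr ha) (Int.natAbs_pos.mpr hb)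
          refine ⟨i * j, mul_ne_zero (by omega) hj, ?_⟩
          have e1 : (((i * j : ℤ)) : ℝ) * x = (((i * a : ℤ)) : ℝ) + ((i * b : ℤ) : ℝ) / √2 := by
            push_cast
            rw [mul_assoc, hab]; ring
          rw [e1]
          have hi0 : (i : ℤ) ≠ 0 := by omega
          have key : ∀ c : ℤ, (∀ l, i * c.natAbs ≠ m l) → ∀ l, (i : ℤ) * c ≠ m l ∧
              (i : ℤ) * c ≠ -(m l : ℤ) := by
            intro c hc l
            constructor
            · intro h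
              apply hc l
              have := congrArg Int.natAbs h
              rw [Int.natAbs_mul, Int.natAbs_natCast, Int.natAbs_natCast] at this
              exact this
            · intro h
              apply hc l
              have := congrArg Int.natAbs h
              rw [Int.natAbs_mul, Int.natAbs_neg, Int.natAbs_natCast, Int.natAbs_natCast] at this
              exact this
          exact intcase hgap hm (fun h => absurd h (mul_ne_zero hi0 hb))
            (fun h => absurd h (mul_ne_zero hi0 ha)) (fun _ => key b hib) (fun _ => key a hia)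
    · push Not at hrep
      refine ⟨1, one_ne_zero, ?_⟩
      rw [Int.cast_one, one_mul]
      refine crit hgap hm ?_ ?_ ?_ ?_ ?_
      · rintro (⟨k, hk, hkl, h | h⟩ | ⟨k, hk, l, h | h | h | h⟩)
        · exact hrep 1 k 0 one_ne_zero (by rw [h]; simp)
        · exact hrep 1 0 k one_ne_zero (by rw [h]; simp)
        · exact hrep 1 k (m l) one_ne_zero (by rw [h]; simp)
        · exact hrep 1 k (-(m l : ℤ)) one_ne_zero (by rw [h]; push_cast; ring)
        · exact hrep 1 (m l) k one_ne_zero (by rw [h]; push_cast; ring)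
        · exact hrep 1 (-(m l : ℤ)) k one_ne_zero (by rw [h]; push_cast; ring)
      · intro z hz
        exact hrep 4 (1 + 4 * z) 0 (by norm_num) (by rw [hz]; push_cast; ring)
      · intro z hz
        exact hrep 4 (-1 + 4 * z) 0 (by norm_num) (by rw [hz]; push_cast; ring)
      · intro z hz
        refine hrep 2 0 (1 + 2 * z) (by norm_num) ?_
        push_cast
        have : x = (1 / 2 + z) / √2 := by rw [← hz]; field_simp
        rw [this]; ring
      · intro z hz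
        refine hrep 2 0 (-1 + 2 * z) (by norm_num) ?_
        push_cast
        have : x = (-(1 / 2) + z) / √2 := by rw [← hz]; field_simp
        rw [this]; ring

end Pool.Agent.H294.LT
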